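import Pool.Agent.helper16.EXC.Spec3

set_option autoImplicit false

open Finset

namespace Pool.Agent.EXC

section
variable {n : ℕ} {C : Matrix (Fin n) (Fin n) ℤ} [IsC C] {F : Type} [Field F]

theorem ZTB_self {a : Lm C F} (ha : Xtr C a) (w : Lm C F) : fm C a (br C a w) = 0 := by
  have h := ha.inv a w
  rw [ha.aa, fm_zero_left] at h
  exact neg_eq_zero.1 h.symm

theorem ZTB_key (hb : ∀ v w : Lm C F, br C v w = -br C w v) {a v c w : Lm C F} (ha : Xtr C a) (hv : Xtr C v)
    (hc : c = br C a w) (hw : fm C a w = 0) : br C (br C a v) c = -(fm C v c • a) - fm C a v • c := by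
  have h1 := ha.str v w
  rw [hw, zero_smul, sub_zero, ← hc] at h1
  have h2 := hv.inv a w
  have h3 := ha.inv v w
  rw [hb v a, fm_neg_left, h3, ← hc, neg_neg] at h2
  have h4 : fm C a (br C v w) = -fm C v c := by
    rw [h2, neg_neg]
  rw [h4, neg_smul] at h1
  have h5 : br C (br C a v) c = -(fm C v c • a) - fm C a v • c := by
    rw [h1]
    abel
  exact h5

end

theorem ZTB (hINV : INV_stmt) : ZTB_stmt := by
  intro n C _ F _ e1 e2 f1 f2 hS M hM
  obtain ⟨_, _, sy, an, _⟩ := hINV n C F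
  obtain ⟨x1, x2, y1, y2, a1, a2, b1, b2, ⟨w1, c1a, c1b⟩, ⟨w2, c2a, c2b⟩, ⟨w3, c3a, c3b⟩, ⟨w4, c4a, c4b⟩⟩ := hS
  have b1' : fm C e2 e1 = 0 := by rw [sy]; exact b1
  have b2' : fm C f2 f1 = 0 := by rw [sy]; exact b2
  have a1' : fm C f1 e1 = -1 := by rw [sy]; exact a1
  have a2' : fm C f2 e2 = -1 := by rw [sy]; exact a2
  -- brackets with e1
  have t3 : br C e1 (br C e1 e2) = 0 := by rw [x1.sq, b1, mul_zero, zero_smul]
  have t5 : br C e1 f2 = 0 := by
    have : br C e1 (br C e1 w2) = (2 * fm C e1 w2) • e1 := x1.sq w2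
    rw [← c2b, c2a, mul_zero, zero_smul] at this
    exact this
  have t7 : br C e1 (br C e1 f1) = -((2 : F) • e1) := by
    rw [x1.sq, a1]
    have : (2 * -1 : F) = -2 := by ring
    rw [this, neg_smul]
  have k1 : br C (br C f2 e2) e1 = e1 := by
    rw [ZTB_key an y2 x2 c1b c1a, b1', a2', zero_smul, neg_smul, one_smul]
    abel
  have t8 : br C e1 (br C e2 f2) = e1 := by
    rw [an e1 (br C e2 f2), an e2 f2, br_neg_left, neg_neg]
    exact k1
  have k2 : br C (br C e1 f1) f2 = f2 := by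
    rw [ZTB_key an x1 y1 c2b c2a, a1, b2, zero_smul, neg_smul, one_smul]
    abel
  have t6 : br C e1 (br C f2 f1) = -f2 := by
    rw [x1.jac, t5, br_zero_left, zero_add, an f2 (br C e1 f1), k2]
  -- brackets with e2
  have u1 : br C e2 e1 = -br C e1 e2 := an e2 e1
  have u3 : br C e2 (br C e1 e2) = 0 := by
    rw [an e1 e2, br_neg_right, x2.sq, b1', mul_zero, zero_smul, neg_zero]
  have u4 : br C e2 f1 = 0 := by
    have : br C e2 (br C e2 w4) = (2 * fm C e2 w4) • e2 := x2.sq w4
    rw [← c4b, c4a, mul_zero, zero_smul] at this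
    exact this
  have k3 : br C (br C e2 f2) f1 = f1 := by
    rw [ZTB_key an x2 y2 c4b c4a, a2, b2', zero_smul, neg_smul, one_smul]
    abel
  have u6 : br C e2 (br C f2 f1) = f1 := by
    rw [x2.jac, u4, br_zero_right, add_zero, k3]
  have k4 : br C (br C f1 e1) e2 = e2 := by
    rw [ZTB_key an y1 x1 c3b c3a, b1, a1', zero_smul, neg_smul, one_smul]
    abel
  have u7 : br C e2 (br C e1 f1) = e2 := by
    rw [an e2 (br C e1 f1), an e1 f1, br_neg_left, neg_neg]
    exact k4
  have u8 : br C e2 (br C e2 f2) = -((2 : F) • e2) := by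
    rw [x2.sq, a2]
    have : (2 * -1 : F) = -2 := by ring
    rw [this, neg_smul]
  -- the form with e1
  have p3 : fm C e1 (br C e1 e2) = 0 := ZTB_self x1 e2
  have p5 : fm C e1 f2 = 0 := by
    rw [c2b]
    exact ZTB_self x1 w2
  have p6 : fm C e1 (br C f2 f1) = 0 := by
    have h := y2.inv e1 f1
    rw [an f2 e1, t5, neg_zero, fm_zero_left] at h
    exact neg_eq_zero.1 h.symm
  have p7 : fm C e1 (br C e1 f1) = 0 := ZTB_self x1 f1
  have p8 : fm C e1 (br C e2 f2) = 0 := by
    have h := x2.inv e1 f2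
    have h2 := x1.inv e2 f2
    rw [t5, fm_zero_right, neg_zero] at h2
    rw [u1, fm_neg_left, h2, neg_zero] at h
    exact neg_eq_zero.1 h.symm
  -- the form with e2
  have q3 : fm C e2 (br C e1 e2) = 0 := by
    rw [an e1 e2, fm_neg_right, ZTB_self x2 e1, neg_zero]
  have q4 : fm C e2 f1 = 0 := by
    rw [c4b]
    exact ZTB_self x2 w4
  have q6 : fm C e2 (br C f2 f1) = 0 := by
    have h := y2.inv e2 f1
    have h2 := x2.inv f2 f1
    rw [u4, fm_zero_right, neg_zero] at h2
    rw [an f2 e2, fm_neg_left, h2, neg_zero] at h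
    exact neg_eq_zero.1 h.symm
  have q7 : fm C e2 (br C e1 f1) = 0 := by
    have h := x1.inv e2 f1
    have h2 := x2.inv e1 f1
    rw [u4, fm_zero_right, neg_zero] at h2
    rw [an e1 e2, fm_neg_left, h2, neg_zero] at h
    exact neg_eq_zero.1 h.symm
  have q8 : fm C e2 (br C e2 f2) = 0 := ZTB_self x2 f2
  have htr : M 2 2 = -M 0 0 - M 1 1 := by
    rw [Matrix.trace_fin_three] at hM
    linear_combination hM
  have E01 : ∀ i j : Fin 3, (Matrix.single 0 1 1 * M - M * Matrix.single 0 1 1 : Matrix (Fin 3) (Fin 3) F) i j =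
      (if i = 0 then M 1 j else 0) - (if j = 1 then M i 0 else 0) := by
    intro i j
    rw [Matrix.sub_apply, Matrix.mul_apply, Matrix.mul_apply, Fin.sum_univ_three, Fin.sum_univ_three]
    fin_cases i <;> fin_cases j <;> simp [Matrix.single]
  have E12 : ∀ i j : Fin 3, (Matrix.single 1 2 1 * M - M * Matrix.single 1 2 1 : Matrix (Fin 3) (Fin 3) F) i j =
      (if i = 1 then M 2 j else 0) - (if j = 2 then M i 1 else 0) := by
    intro i j
    rw [Matrix.sub_apply, Matrix.mul_apply, Matrix.mul_apply, Fin.sum_univ_three, Fin.sum_univ_three]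
    fin_cases i <;> fin_cases j <;> simp [Matrix.single]
  refine ⟨?_, ?_, ?_, ?_⟩
  · unfold i3
    simp only [E01, br_add_right, br_smul_right, x1.aa, t3, t5, t6, t7, t8]
    simp only [Fin.isValue, reduceIte, Fin.reduceEq, sub_zero, zero_sub, smul_zero, zero_smul, add_zero, zero_add, sub_self]
    module
  · unfold i3
    simp only [E12, br_add_right, br_smul_right, x2.aa, u1, u3, u4, u6, u7, u8]
    simp only [Fin.isValue, reduceIte, Fin.reduceEq, sub_zero, zero_sub, smul_zero, zero_smul, add_zero, zero_add, sub_self, htr]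
    module
  · unfold i3
    simp only [fm_add_right, fm_smul_right, x1.ff, b1, p3, a1, p5, p6, p7, p8]
    ring
  · unfold i3
    simp only [fm_add_right, fm_smul_right, x2.ff, b1', q3, q4, a2, q6, q7, q8]
    ring

end Pool.Agent.EXC
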